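import Pool.Agent.Y998.CN.Defs

/-!
CN-TR (job 6853): the trace of the exponential is the mean of `q ^ (number of cycles)`.
-/

set_option autoImplicit false
set_option linter.all false

namespace Pool.Agent.Y664.CN

open Finset Equiv Pool.Agent.Y998.ST Pool.Agent.Y998.CN

variable {V : Type} [Fintype V] [DecidableEq V]

/-- the kernel of colourings -/
noncomputable def YY (q : ℕ) (J : V → V → ℝ) (t : ℝ) : Matrix (V → Fin q) (V → Fin q) ℝ :=
  fun c c' => stirExp J t (fun g => if c = c' ∘ g then 1 else 0)

theorem swap_iff {q : ℕ} (a b : V) (c c' : V → Fin q) :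
    c' = c ∘ swap a b ↔ c = c' ∘ swap a b := by
  constructor
  · rintro rfl; funext i; simp
  · rintro rfl; funext i; simp

theorem YY_deriv (q : ℕ) (J : V → V → ℝ) (t : ℝ) (c c' : V → Fin q) :
    HasDerivAt (fun u => YY q J u c c') ((YY q J t * (-(ham q J))) c c') t := by
  refine HasDerivAt.congr_deriv (f := fun u => YY q J u c c')
    (exp_deriv J t (fun g => if c = c' ∘ g then 1 else 0)) ?_
  rw [Matrix.mul_apply]
  simp only [Matrix.neg_apply, ham, mul_neg, Finset.mul_sum, YY]
  rw [Finset.sum_neg_distrib]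
  symm
  rw [Finset.sum_comm, ← Finset.sum_neg_distrib]
  refine Finset.sum_congr rfl fun a _ => ?_
  rw [Finset.sum_comm, ← Finset.sum_neg_distrib]
  refine Finset.sum_congr rfl fun b _ => ?_
  have h1 : ∀ g : Perm V, (c = c' ∘ (swap a b * g : Perm V)) ↔ (c = (c' ∘ swap a b) ∘ g) := by
    intro g
    rfl
  simp only [h1]
  have h3 : ∀ z : V → Fin q, stirExp J t (fun g => if c = z ∘ g then 1 else 0) *
      (J a b / 2 * ((if c' = z then 1 else 0) - (if c' = z ∘ swap a b then 1 else 0))) =
      (if z = c' then J a b / 2 * stirExp J t (fun g => if c = z ∘ g then 1 else 0) else 0) -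
      (if z = c' ∘ swap a b then
        J a b / 2 * stirExp J t (fun g => if c = z ∘ g then 1 else 0) else 0) := by
    intro z
    have h4 : (c' = z ∘ swap a b) ↔ (z = c' ∘ swap a b) := swap_iff a b z c'
    by_cases h5 : c' = z ∘ swap a b
    · rw [if_pos h5, if_pos (h4.1 h5)]
      by_cases h6 : c' = z
      · rw [if_pos h6, if_pos h6.symm]; ring
      · rw [if_neg h6, if_neg (Ne.symm h6)]; ring
    · rw [if_neg h5, if_neg (fun h => h5 (h4.2 h))]
      by_cases h6 : c' = z
      · rw [if_pos h6, if_pos h6.symm]; ring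
      · rw [if_neg h6, if_neg (Ne.symm h6)]; ring
  rw [Finset.sum_congr rfl fun z _ => h3 z, Finset.sum_sub_distrib, Finset.sum_ite_eq',
    Finset.sum_ite_eq', if_pos (Finset.mem_univ _), if_pos (Finset.mem_univ _)]
  ring

theorem YY_zero (q : ℕ) (J : V → V → ℝ) : YY q J 0 = 1 := by
  ext x y
  unfold YY stirExp
  simp only [law_zero, ite_mul, one_mul, zero_mul]
  rw [Finset.sum_ite_eq', if_pos (Finset.mem_univ _), Matrix.one_apply]
  rfl

theorem fix_zpow {q : ℕ} (g : Perm V) (c : V → Fin q) (h : ∀ x, c (g x) = c x) (i : ℤ) :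
    ∀ x, c ((g ^ i) x) = c x := by
  induction i using Int.induction_on with
  | zero => intro x; simp
  | succ n ih =>
    intro x
    rw [zpow_add_one, Perm.mul_apply, ih, h]
  | pred n ih =>
    intro x
    rw [zpow_sub_one, Perm.mul_apply, ih, ← h (g⁻¹ x)]
    congr 1
    exact g.apply_symm_apply x

/-- the colourings fixed by `g` are the functions on the cycles -/
noncomputable def fixEquiv (q : ℕ) (g : Perm V) :
    {c : V → Fin q // c = c ∘ g} ≃ (Quotient (Perm.SameCycle.setoid g) → Fin q) where
  toFun c := Quotient.lift c.1 (by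
    rintro x y ⟨i, hi⟩
    rw [← hi]
    exact (fix_zpow g c.1 (fun x => (congrFun c.2 x).symm) i x).symm)
  invFun f := ⟨fun x => f (Quotient.mk _ x), by
    funext x
    show f _ = f _
    congr 1
    apply Quotient.sound
    exact ⟨1, by rw [zpow_one]⟩⟩
  left_inv c := by
    apply Subtype.ext
    funext x
    rfl
  right_inv f := by
    funext x
    induction x using Quotient.inductionOn with
    | h x => rfl

theorem count (q : ℕ) (g : Perm V) :
    ∑ c : V → Fin q, (if c = c ∘ g then (1 : ℝ) else 0) = (q : ℝ) ^ numCycles g := by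
  rw [Finset.sum_boole]
  have h1 : (univ.filter fun c : V → Fin q => c = c ∘ g).card = q ^ numCycles g := by
    rw [← Fintype.card_subtype, ← Nat.card_eq_fintype_card, Nat.card_congr (fixEquiv q g), numCycles]
    haveI : Finite (Quotient (Perm.SameCycle.setoid g)) := inferInstance
    rw [Nat.card_fun, Nat.card_eq_fintype_card (α := Fin q), Fintype.card_fin]
  rw [h1, Nat.cast_pow]

theorem t_TR : Pool.Agent.Y998.CN.S_TR := by
  intro V _ _ J q t
  rw [Zf, ← eq_E (YY_deriv q J) (YY_zero q J) t, Matrix.trace]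
  simp only [Matrix.diag_apply, YY, stirExp]
  rw [Finset.sum_comm]
  refine Finset.sum_congr rfl fun g _ => ?_
  rw [← Finset.mul_sum, count]

end Pool.Agent.Y664.CN
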